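import Pool.Agent.Y395.RS.Thm

set_option autoImplicit false

/-!
# Almost all spanning subgraphs of every large graph are reconstructible

`T(G)` is the set of nonempty cliques of `G` ordered by inclusion.  For every graph `G` with `n`
vertices, `n` large, all but a proportion `n ^ (-1/20)` of the spanning subgraphs `H` of `G` (the
subgraphs of `G` with all vertices of `G`) have a `T(H)` which is reconstructible from its deck of
maximal filter deleted subsets.  The same holds for the graphs `H` on the same vertices which
contain `G`.  There is no condition on `G`; the case of a complete graph `G` is the theorem that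
almost all graphs are reconstructible.

The lemmas were proved by helpers 86, 125, 188, 297, 375, 405, 412, 438, 448, 528 and 891 of the
team.
-/

namespace Pool.Agent.Results.MP_552896_co.AlmostAllSubgraphs

/-- The truncated clique lattices of `G` and `H` have the same deck of maximal filter deleted
subsets: some bijection `f` of the vertex sets is such that, for every vertex `v`, the nonempty
cliques of `G` avoiding `v` and the nonempty cliques of `H` avoiding `f v`, both ordered by
inclusion, are isomorphic ordered sets. -/
def SameDeck {V W : Type} (G : SimpleGraph V) (H : SimpleGraph W) : Prop :=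
  ∃ f : V ≃ W, ∀ v : V,
    Nonempty ({s : Finset V // s.Nonempty ∧ G.IsClique (s : Set V) ∧ v ∉ s} ≃o
      {t : Finset W // t.Nonempty ∧ H.IsClique (t : Set W) ∧ f v ∉ t})

/-- `T(G)` is reconstructible from its deck: every truncated clique lattice `T(H)` of a finite
graph `H` with the same deck is isomorphic to `T(G)`. -/
def Reconstructible {V : Type} (G : SimpleGraph V) : Prop :=
  ∀ (W : Type) [Fintype W] (H : SimpleGraph W), SameDeck G H →
    Nonempty ({s : Finset V // s.Nonempty ∧ G.IsClique (s : Set V)} ≃o
      {t : Finset W // t.Nonempty ∧ H.IsClique (t : Set W)})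

/-- For every sufficiently large finite graph `G`, with `n` vertices, the number of the spanning
subgraphs `H` of `G` with a nonreconstructible `T(H)` is at most `n ^ (-1/20)` times the number of
all spanning subgraphs of `G`, and the number of the graphs `H` on the vertices of `G` which
contain `G` and have a nonreconstructible `T(H)` is at most `n ^ (-1/20)` times the number of all
graphs which contain `G`. -/
theorem result : ∃ n₀ : ℕ, ∀ (V : Type) [Fintype V] (G : SimpleGraph V),
    n₀ ≤ Fintype.card V →
    (({H : SimpleGraph V | H ≤ G ∧ ¬ Reconstructible H}.ncard : ℕ) : ℝ) ≤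
        (Fintype.card V : ℝ) ^ (-(1 / 20) : ℝ) *
          (({H : SimpleGraph V | H ≤ G}.ncard : ℕ) : ℝ) ∧
    (({H : SimpleGraph V | G ≤ H ∧ ¬ Reconstructible H}.ncard : ℕ) : ℝ) ≤
        (Fintype.card V : ℝ) ^ (-(1 / 20) : ℝ) *
          (({H : SimpleGraph V | G ≤ H}.ncard : ℕ) : ℝ) :=
  Pool.Agent.Y395.RS.fin_graph

end Pool.Agent.Results.MP_552896_co.AlmostAllSubgraphs
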