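import Pool.Agent.Y395.RW.Fin

set_option autoImplicit false

/-!
# Random graphs with independent edges of arbitrary probabilities are reconstructible

`T(G)` is the set of nonempty cliques of `G` ordered by inclusion.  Let the pairs `e` of different
vertices of a set of `n ≥ 3` vertices be edges of a random graph `G` independently with arbitrary
probabilities `p e` (some of them may be `0` or `1`, and they may depend on `n`), and let `Y` be a
set of vertices such that for every `x ∈ Y` the number of the neighbours of `x` in `Y` has variance
at least `72 log n + 1`.  There is no condition on the pairs with a vertex outside `Y`.  With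
probability at least `1 - 1 / n` the random graph has the following properties.

* If `Y` is the set of all vertices, every three cards determine `T(G)`.
* The cards at `a`, `b`, `c` determine `T(G)` for all but `(5 |V \ Y| + 3) n ^ 2` of the ordered
  triples `(a, b, c)` of vertices.
* If `Y` has at least `n / 2 + 1` vertices, `T(G)` is reconstructible.
* If some vertex has all its neighbours in `Y`, or some vertex has all its non-neighbours in `Y`,
  `T(G)` is reconstructible.

Examples: the random graph `G(n, p)` with `n p (1 - p) ≥ 73 log n + 1` (all `n`, known); the random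
spanning subgraphs of an arbitrary graph of minimum degree at least `288 log n + 4`; an arbitrary
graph in which the adjacencies of all pairs from a set `D` of pairs are flipped independently with
probability `p`, where every vertex belongs to at least `(72 log n + 1) / (p (1 - p))` pairs of
`D`; and the same with the randomness restricted to a set `Y` of more than half of the vertices.
-/

namespace Pool.Agent.Results.MP_552896_co.IndependentEdges

/-- The card of `T(G)` at `v` and the card of `T(H)` at `w` are isomorphic: the nonempty cliques
of `G` avoiding `v` and the nonempty cliques of `H` avoiding `w`, both ordered by inclusion, are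
isomorphic ordered sets. -/
def SameCard {V W : Type} (G : SimpleGraph V) (v : V) (H : SimpleGraph W) (w : W) : Prop :=
  Nonempty ({s : Finset V // s.Nonempty ∧ G.IsClique (s : Set V) ∧ v ∉ s} ≃o
    {t : Finset W // t.Nonempty ∧ H.IsClique (t : Set W) ∧ w ∉ t})

/-- `T(G)` and `T(H)` are isomorphic ordered sets. -/
def SameLattice {V W : Type} (G : SimpleGraph V) (H : SimpleGraph W) : Prop :=
  Nonempty ({s : Finset V // s.Nonempty ∧ G.IsClique (s : Set V)} ≃o
    {t : Finset W // t.Nonempty ∧ H.IsClique (t : Set W)})

/-- `T(G)` is reconstructible from its deck of maximal filter deleted subsets: every truncated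
clique lattice `T(H)` of a finite graph `H` with the same deck is isomorphic to `T(G)`. -/
def Reconstructible {V : Type} (G : SimpleGraph V) : Prop :=
  ∀ (W : Type) [Fintype W] (H : SimpleGraph W),
    (∃ f : V ≃ W, ∀ v : V, SameCard G v H (f v)) → SameLattice G H

/-- The cards at `a`, `b`, `c` determine `T(G)`: the vertices `a`, `b`, `c` are distinct, and
every truncated clique lattice `T(H)` of a finite graph `H` which has, at three distinct vertices,
cards isomorphic to the cards of `T(G)` at `a`, `b`, `c`, is isomorphic to `T(G)`. -/
def DeterminedBy {V : Type} (G : SimpleGraph V) (a b c : V) : Prop :=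
  a ≠ b ∧ a ≠ c ∧ b ≠ c ∧
    ∀ (W : Type) [Fintype W] (H : SimpleGraph W) (a' b' c' : W), a' ≠ b' → a' ≠ c' → b' ≠ c' →
      SameCard G a H a' → SameCard G b H b' → SameCard G c H c' → SameLattice G H

/-- The properties of the random graph. -/
def Good {V : Type} [Fintype V] (G : SimpleGraph V) (Y : Finset V) : Prop :=
  (Y = Finset.univ → ∀ a b c : V, a ≠ b → a ≠ c → b ≠ c → DeterminedBy G a b c) ∧
  ({t : V × V × V | ¬ DeterminedBy G t.1 t.2.1 t.2.2}.ncard ≤
    (5 * (Fintype.card V - Y.card) + 3) * Fintype.card V ^ 2) ∧
  (Fintype.card V + 2 ≤ 2 * Y.card → Reconstructible G) ∧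
  (∀ z : V, (∀ u : V, G.Adj z u → u ∈ Y) ∨ (∀ u : V, u ≠ z → ¬ G.Adj z u → u ∈ Y) →
    Reconstructible G)

open Classical in
/-- The probability of the graph `H` in the model in which the pairs `e` of different vertices are
edges independently with the probabilities `p e`. -/
noncomputable def prob {V : Type} [Fintype V] (p : Sym2 V → ℝ) (H : SimpleGraph V) : ℝ :=
  ∏ e ∈ Finset.univ.filter (fun e : Sym2 V => ¬ e.IsDiag),
    if e ∈ H.edgeSet then p e else 1 - p e

open Classical in
/-- Let `V` be a set of `n ≥ 3` vertices, let the pairs `e` of different vertices be edges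
independently with probabilities `p e`, and let `Y` be a set of vertices such that for every
`x ∈ Y` the sum of the variances `p e (1 - p e)` over the pairs `e = {x, z}`, `z ∈ Y`, is at least
`72 log n + 1`. The probability that the random graph does not have the properties `Good` is at
most `1 / n`. -/
theorem result (V : Type) [Fintype V] (p : Sym2 V → ℝ) (Y : Finset V)
    (hV : 3 ≤ Fintype.card V) (hp : ∀ e, 0 ≤ p e ∧ p e ≤ 1)
    (hY : ∀ x ∈ Y, 72 * Real.log (Fintype.card V) + 1 ≤
      ∑ z ∈ Y.filter (fun z => z ≠ x), p s(x, z) * (1 - p s(x, z))) :
    ∑ H ∈ Finset.univ.filter (fun H : SimpleGraph V => ¬ Good H Y), prob p H ≤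
      1 / (Fintype.card V : ℝ) := by
  have h1 : ∀ G : SimpleGraph V,
      {t : V × V × V | ¬ DeterminedBy G t.1 t.2.1 t.2.2}.ncard =
        (Pool.Agent.TH953.RC.BT G).card := by
    intro G
    rw [← Set.ncard_coe_finset]
    congr 1
    ext t
    simp only [Pool.Agent.TH953.RC.BT, Finset.coe_filter, Finset.mem_univ, true_and]
    exact Iff.rfl
  have h2 : ∀ G : SimpleGraph V, Good G Y ↔ Pool.Agent.Y395.RW.Good G Y := by
    intro G
    unfold Good Pool.Agent.Y395.RW.Good
    rw [h1 G]
    exact Iff.rfl
  have h3 := Pool.Agent.Y395.RW.main p Y hV hp hY
  refine le_trans (le_of_eq ?_) h3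
  apply Finset.sum_congr
  · ext H
    rw [Finset.mem_filter, Finset.mem_filter, h2 H]
  · intro H _
    rfl

end Pool.Agent.Results.MP_552896_co.IndependentEdges
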