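import Pool.Agent.Y400.Rec.Gen

set_option autoImplicit false

/-!
# Graphs without long paths, and graphs with many comparable components over a small set

`T(G)` is the set of nonempty cliques of `G` ordered by inclusion. `T(G)` and `T` of the complement
of `G` are reconstructible in each of the following cases; `Z` is a set of `z` vertices, a
*component* is a connected component of `G - Z`, and `2 z! < (3/2)^t`.

(A) *The general criterion.* `F` is a class of graphs closed under isomorphism such that `Z` meets
every set of vertices which induces a member of `F`, and `D` is a family of at least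
`t^2 + r z (3 z + 1)` components such that, whenever a vertex `x` of `Z` is adjacent to `r` members
of `D`, some set which consists of `x` and vertices of these `r` components induces a member
of `F`.

(B) *Orders.* `s` is the largest order of a component, and at least `t^2 + r z (3 z + 1)`
components have order at least `s / r`. For example, `t^2 + z (3 z + 1)` components of the largest
order suffice, whatever the order is and whatever the other components are.

(C) *Longest paths.* `p` is the largest number of vertices of a path of `G - Z`, and at least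
`t^2 + 2 z (3 z + 1)` components contain a path with `p` vertices.

(D) *No long paths.* Every path of `G - Z` has at most `k` vertices, and `G` has at least
`((k + 1) (z + 2))^(4^k)` vertices. For `Z = ∅`: all but finitely many of the graphs whose paths
have at most `k` vertices are reconstructible, for every `k`.

The degree of `x` in a graph `K`, which was used in the earlier files, is replaced by the largest
number `val(x)` of sets of vertices which pairwise meet exactly in `x` and induce a member of `F`.
It drops by at most one when another vertex is deleted, so that if no value is `e` or `e + 1`, then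
the set of the vertices with larger value is the same in `G` and in a hypomorphic graph, and is
preserved by the isomorphisms of the cards. In (D) one applies (C) for `p = k, k - 1, ..., 1`; two
longest paths of a connected graph have a common vertex.
-/

namespace Pool.Agent.Results.MP_552896_co.NoLongPaths

/-- The truncated clique lattices of `G` and `H` have the same deck of maximal filter deleted
subsets: some bijection `f` of the vertex sets is such that, for every vertex `v`, the nonempty
cliques of `G` avoiding `v` and the nonempty cliques of `H` avoiding `f v`, both ordered by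
inclusion, are isomorphic ordered sets. -/
def SameDeck {V W : Type} (G : SimpleGraph V) (H : SimpleGraph W) : Prop :=
  ∃ f : V ≃ W, ∀ v : V,
    Nonempty ({s : Finset V // s.Nonempty ∧ G.IsClique (s : Set V) ∧ v ∉ s} ≃o
      {t : Finset W // t.Nonempty ∧ H.IsClique (t : Set W) ∧ f v ∉ t})

/-- `T(G)` is reconstructible from its deck: every truncated clique lattice `T(H)` of a finite
graph `H` with the same deck is isomorphic to `T(G)`. -/
def Reconstructible {V : Type} (G : SimpleGraph V) : Prop :=
  ∀ (W : Type) [Fintype W] (H : SimpleGraph W), SameDeck G H →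
    Nonempty ({s : Finset V // s.Nonempty ∧ G.IsClique (s : Set V)} ≃o
      {t : Finset W // t.Nonempty ∧ H.IsClique (t : Set W)})

/-- `D` is the vertex set of a connected component of `G - Z`. -/
def Component {V : Type} (G : SimpleGraph V) (Z D : Finset V) : Prop :=
  (G.induce (D : Set V)).Connected ∧ (∀ x ∈ D, x ∉ Z) ∧ ∀ x ∈ D, ∀ y, G.Adj x y → y ∈ D ∨ y ∈ Z

open Classical in
/-- Cases (A), (B), (C) and (D). `T(G)` and `T(Gᶜ)` are reconstructible if `2 |Z|! < (3/2)^t` and
(A) `Z` meets every set which induces a member of the isomorphism closed class `F`, and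
`𝒟` is a set of at least `t^2 + r |Z| (3 |Z| + 1)` components of `G - Z` such that, if `x ∈ Z` is
adjacent to every member of a set `ℰ ⊆ 𝒟` with `r` elements, then some `P` with
`x ∈ P ⊆ {x} ∪ ⋃ ℰ` induces a member of `F`, or
(B) the components of `G - Z` have at most `s` vertices and at least `t^2 + r |Z| (3 |Z| + 1)` of
them have at least `s / r` vertices, or
(C) the paths of `G - Z` have at most `p` vertices and at least `t^2 + 2 |Z| (3 |Z| + 1)` of the
components of `G - Z` contain a path with `p` vertices;
and (D) without an assumption on `t`, if the paths of `G - Z` have at most `k` vertices and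
`((k + 1) (|Z| + 2))^(4^k) ≤ |V|`. -/
theorem result {V : Type} [Fintype V] (G : SimpleGraph V) (Z : Finset V) :
    (∀ t : ℕ, 2 * (Z.card.factorial : ℝ) < (3 / 2 : ℝ) ^ t →
      (∀ (F : (U : Type) → SimpleGraph U → Prop) (𝒟 : Finset (Finset V)) (r : ℕ),
        (∀ (U U' : Type) (K : SimpleGraph U) (K' : SimpleGraph U'),
          F U K → Nonempty (K ≃g K') → F U' K') →
        (∀ D ∈ 𝒟, Component G Z D) →
        (∀ P : Finset V, F {x // x ∈ (P : Set V)} (G.induce (P : Set V)) → ∃ x ∈ P, x ∈ Z) →
        (∀ x ∈ Z, ∀ ℰ, ℰ ⊆ 𝒟 → ℰ.card = r → (∀ D ∈ ℰ, ∃ y ∈ D, G.Adj x y) →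
          ∃ P : Finset V, x ∈ P ∧ P ⊆ insert x (ℰ.biUnion id) ∧
            F {x // x ∈ (P : Set V)} (G.induce (P : Set V))) →
        t ^ 2 + Z.card * (r * (3 * Z.card + 1)) ≤ 𝒟.card →
        Reconstructible G ∧ Reconstructible Gᶜ) ∧
      (∀ (𝒟 : Finset (Finset V)) (r s : ℕ), (∀ D ∈ 𝒟, Component G Z D) →
        (∀ D, Component G Z D → D.card ≤ s) → (∀ D ∈ 𝒟, s ≤ r * D.card) →
        t ^ 2 + Z.card * (r * (3 * Z.card + 1)) ≤ 𝒟.card →
        Reconstructible G ∧ Reconstructible Gᶜ) ∧
      (∀ (𝒟 : Finset (Finset V)) (p : ℕ), (∀ D ∈ 𝒟, Component G Z D) →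
        (∀ (u v : V) (w : G.Walk u v), w.IsPath → (∀ x ∈ w.support, x ∉ Z) → w.length < p) →
        (∀ D ∈ 𝒟, ∃ (u v : V) (w : G.Walk u v), w.IsPath ∧ (∀ x ∈ w.support, x ∈ D) ∧
          w.length + 1 = p) →
        t ^ 2 + Z.card * (2 * (3 * Z.card + 1)) ≤ 𝒟.card →
        Reconstructible G ∧ Reconstructible Gᶜ)) ∧
    (∀ k : ℕ,
      (∀ (u v : V) (w : G.Walk u v), w.IsPath → (∀ x ∈ w.support, x ∉ Z) → w.length < k) →
      ((k + 1) * (Z.card + 2)) ^ (4 ^ k) ≤ Fintype.card V →
      Reconstructible G ∧ Reconstructible Gᶜ) := by
  refine ⟨fun t ht => ⟨?_, ?_, ?_⟩, ?_⟩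
  · intro F 𝒟 r hF h𝒟 hZ hx hm
    exact Pool.Agent.Y400.Rec.fam_form G F hF Z 𝒟 r t h𝒟 hZ hx ht hm
  · intro 𝒟 r s h𝒟 hs hr hm
    exact Pool.Agent.Y400.Rec.order_form G Z 𝒟 r s t h𝒟 hs hr ht hm
  · intro 𝒟 p h𝒟 hp hD hm
    exact Pool.Agent.Y400.Rec.path_form G Z 𝒟 p t h𝒟 hp hD ht hm
  · intro k hk hm
    exact Pool.Agent.Y400.Rec.long_form G Z k hk hm

end Pool.Agent.Results.MP_552896_co.NoLongPaths
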